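import Pool.Agent.H77.UZ.Def

/-!
# Uniform zeta, chapter RIESZ MEAN OF THE IDEALS: the ideals of a class and the elements of an ideal
-/

namespace H77.UZ

open NumberField nonZeroDivisors

open scoped Classical

variable {K : Type} [Field K] [NumberField K]

/-- The nonzero elements of an ideal. -/
abbrev YE (b : (Ideal (𝓞 K))⁰) : Type := {α : 𝓞 K // α ∈ (b : Ideal (𝓞 K)) ∧ α ≠ 0}

/-- The ideals of the class inverse to that of `b`. -/
abbrev XI (b : (Ideal (𝓞 K))⁰) : Type :=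
  {I : (Ideal (𝓞 K))⁰ // ClassGroup.mk0 I * ClassGroup.mk0 b = 1}

lemma exists_cof (b : (Ideal (𝓞 K))⁰) (α : YE b) :
    ∃ I : XI b, Ideal.span {α.1} = (I.1 : Ideal (𝓞 K)) * (b : Ideal (𝓞 K)) := by
  obtain ⟨J, hJ⟩ := Ideal.dvd_span_singleton.2 α.2.1
  have hJ0 : J ≠ 0 := by
    rintro rfl
    rw [mul_zero, Ideal.zero_eq_bot, Ideal.span_singleton_eq_bot] at hJ
    exact α.2.2 hJ
  refine ⟨⟨⟨J, mem_nonZeroDivisors_of_ne_zero hJ0⟩, ?_⟩, ?_⟩
  · rw [← map_mul, ClassGroup.mk0_eq_one_iff]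
    refine ⟨⟨α.1, ?_⟩⟩
    show (J * (b : Ideal (𝓞 K))) = _
    rw [mul_comm, ← hJ]
  · exact hJ.trans (mul_comm _ _)

/-- The ideal `α / b`. -/
noncomputable def cof (b : (Ideal (𝓞 K))⁰) (α : YE b) : XI b := (exists_cof b α).choose

lemma cof_spec (b : (Ideal (𝓞 K))⁰) (α : YE b) :
    Ideal.span {α.1} = ((cof b α).1 : Ideal (𝓞 K)) * (b : Ideal (𝓞 K)) :=
  (exists_cof b α).choose_spec

lemma exists_gen (b : (Ideal (𝓞 K))⁰) (I : XI b) :
    ∃ g : 𝓞 K, (I.1 : Ideal (𝓞 K)) * (b : Ideal (𝓞 K)) = Ideal.span {g} := by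
  have h := I.2
  rw [← map_mul, ClassGroup.mk0_eq_one_iff] at h
  obtain ⟨⟨g, hg⟩⟩ := h
  exact ⟨g, hg⟩

/-- A generator of the principal ideal `I b`. -/
noncomputable def gI (b : (Ideal (𝓞 K))⁰) (I : XI b) : 𝓞 K := (exists_gen b I).choose

lemma gI_spec (b : (Ideal (𝓞 K))⁰) (I : XI b) :
    (I.1 : Ideal (𝓞 K)) * (b : Ideal (𝓞 K)) = Ideal.span {gI b I} :=
  (exists_gen b I).choose_spec

lemma gI_ne_zero (b : (Ideal (𝓞 K))⁰) (I : XI b) : gI b I ≠ 0 := by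
  intro h
  have h1 := gI_spec b I
  rw [h, Ideal.span_singleton_eq_bot.2 rfl, ← Ideal.zero_eq_bot, mul_eq_zero] at h1
  rcases h1 with h1 | h1
  · exact nonZeroDivisors.ne_zero I.1.2 h1
  · exact nonZeroDivisors.ne_zero b.2 h1

lemma unit_mul_gI_mem (b : (Ideal (𝓞 K))⁰) (I : XI b) (u : (𝓞 K)ˣ) :
    (u : 𝓞 K) * gI b I ∈ (b : Ideal (𝓞 K)) ∧ (u : 𝓞 K) * gI b I ≠ 0 := by
  refine ⟨?_, mul_ne_zero u.ne_zero (gI_ne_zero b I)⟩
  have h : gI b I ∈ (b : Ideal (𝓞 K)) := by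
    have h1 : gI b I ∈ (I.1 : Ideal (𝓞 K)) * (b : Ideal (𝓞 K)) := by
      rw [gI_spec]; exact Ideal.mem_span_singleton_self _
    exact Ideal.mul_le_right h1
  exact Ideal.mul_mem_left (b : Ideal (𝓞 K)) (u : 𝓞 K) h

lemma span_unit_mul_gI (b : (Ideal (𝓞 K))⁰) (I : XI b) (u : (𝓞 K)ˣ) :
    Ideal.span {(u : 𝓞 K) * gI b I} = (I.1 : Ideal (𝓞 K)) * (b : Ideal (𝓞 K)) := by
  rw [gI_spec, Ideal.span_singleton_eq_span_singleton]
  exact ⟨u⁻¹, by rw [mul_comm (u : 𝓞 K), mul_assoc, Units.mul_inv, mul_one]⟩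

lemma cof_eq_iff (b : (Ideal (𝓞 K))⁰) (α : YE b) (I : XI b) :
    cof b α = I ↔ Ideal.span {α.1} = (I.1 : Ideal (𝓞 K)) * (b : Ideal (𝓞 K)) := by
  constructor
  · rintro rfl
    exact cof_spec b α
  · intro h
    have h1 := cof_spec b α
    rw [h] at h1
    have h2 := mul_right_cancel₀ (nonZeroDivisors.ne_zero b.2) h1
    apply Subtype.ext
    apply Subtype.ext
    exact h2.symm

/-- The elements with a given ideal are the multiples of the generator by the units. -/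
noncomputable def fibE (b : (Ideal (𝓞 K))⁰) (I : XI b) :
    (𝓞 K)ˣ ≃ {α : YE b // cof b α = I} :=
  Equiv.ofBijective
    (fun u => ⟨⟨(u : 𝓞 K) * gI b I, unit_mul_gI_mem b I u⟩, by
      rw [cof_eq_iff]; exact span_unit_mul_gI b I u⟩) (by
    constructor
    · intro u v huv
      have h1 := congrArg (fun z : {α : YE b // cof b α = I} => z.1.1) huv
      simp only at h1
      exact Units.ext (mul_right_cancel₀ (gI_ne_zero b I) h1)
    · rintro ⟨α, hα⟩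
      rw [cof_eq_iff, gI_spec, Ideal.span_singleton_eq_span_singleton] at hα
      obtain ⟨u, hu⟩ := hα.symm
      refine ⟨u, ?_⟩
      apply Subtype.ext
      apply Subtype.ext
      simp only
      rw [mul_comm]
      exact hu)

/-- The sum over the nonzero elements of an ideal as a sum over the ideals of the opposite
class and the units. -/
theorem tsum_YE (b : (Ideal (𝓞 K))⁰) (F : 𝓞 K → ENNReal) :
    ∑' α : YE b, F α.1 = ∑' I : XI b, ∑' u : (𝓞 K)ˣ, F ((u : 𝓞 K) * gI b I) := by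
  rw [← (Equiv.sigmaFiberEquiv (cof b)).tsum_eq, ENNReal.tsum_sigma']
  refine tsum_congr fun I => ?_
  rw [← (fibE b I).tsum_eq]
  rfl

lemma absNorm_gI (b : (Ideal (𝓞 K))⁰) (I : XI b) :
    (Ideal.absNorm (I.1 : Ideal (𝓞 K)) : ℝ) * (Ideal.absNorm (b : Ideal (𝓞 K)) : ℝ) =
      |(Algebra.norm ℚ (gI b I : K) : ℝ)| := by
  have h1 := congrArg Ideal.absNorm (gI_spec b I)
  rw [map_mul, Ideal.absNorm_span_singleton] at h1
  have h2 : ((Algebra.norm ℤ (gI b I)).natAbs : ℝ) = |(Algebra.norm ℚ (gI b I : K) : ℝ)| := by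
    rw [← Algebra.coe_norm_int, Nat.cast_natAbs]
    push_cast
    rfl
  rw [← h2, ← h1]
  push_cast
  rfl

/-- An ideal in a given class. -/
noncomputable def bC (C : ClassGroup (𝓞 K)) : (Ideal (𝓞 K))⁰ :=
  (ClassGroup.mk0_surjective C⁻¹).choose

lemma mk0_bC (C : ClassGroup (𝓞 K)) : ClassGroup.mk0 (bC C) = C⁻¹ :=
  (ClassGroup.mk0_surjective C⁻¹).choose_spec

/-- The sum over all the nonzero ideals, by the classes. -/
theorem tsum_ideals (G : (Ideal (𝓞 K))⁰ → ENNReal) :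
    ∑' I : (Ideal (𝓞 K))⁰, G I = ∑ C : ClassGroup (𝓞 K), ∑' I : XI (bC C), G I.1 := by
  rw [← (Equiv.sigmaFiberEquiv (ClassGroup.mk0 (R := 𝓞 K))).tsum_eq, ENNReal.tsum_sigma',
    tsum_fintype]
  refine Finset.sum_congr rfl fun C _ => ?_
  let e' : {I : (Ideal (𝓞 K))⁰ // ClassGroup.mk0 I = C} ≃ XI (bC C) :=
    Equiv.subtypeEquivRight fun I => by
      rw [mk0_bC, mul_inv_eq_one]
  rw [← e'.tsum_eq]
  rfl

end H77.UZ
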