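import Pool.Agent.H77.UZ.Lat

/-!
# Uniform zeta, chapter RIESZ MEAN OF THE IDEALS: the count with a relative error
-/

namespace H77.UZ

open NumberField NumberField.InfinitePlace NumberField.Units NumberField.mixedEmbedding
open NumberField.Units.dirichletUnitTheorem MeasureTheory nonZeroDivisors

open scoped Classical

/-- The constant in the error term. -/
def Cn (n : ℕ) : ℝ := n * (1 + 2 ^ n) ^ n + 1

lemma one_le_Cn (n : ℕ) : 1 ≤ Cn n := by
  unfold Cn
  have : (0 : ℝ) ≤ n * (1 + 2 ^ n) ^ n := by positivity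
  linarith

private lemma pow_sub_le' {x y : ℝ} (hy : 0 ≤ y) (hxy : y ≤ x) (n : ℕ) :
    x ^ n - y ^ n ≤ n * (x - y) * x ^ (n - 1) := by
  induction n with
  | zero => simp
  | succ n ih =>
    rcases Nat.eq_zero_or_pos n with h | h
    · subst h; simp
    · have hx : 0 ≤ x := hy.trans hxy
      have h1 : x ^ (n + 1) - y ^ (n + 1) = x * (x ^ n - y ^ n) + (x - y) * y ^ n := by ring
      have h2 : x * (x ^ n - y ^ n) ≤ x * (n * (x - y) * x ^ (n - 1)) :=
        mul_le_mul_of_nonneg_left ih hx
      have h3 : (x - y) * y ^ n ≤ (x - y) * x ^ n :=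
        mul_le_mul_of_nonneg_left (pow_le_pow_left₀ hy hxy n) (by linarith)
      have h4 : x * (n * (x - y) * x ^ (n - 1)) = n * (x - y) * x ^ n := by
        obtain ⟨m, rfl⟩ : ∃ m, n = m + 1 := ⟨n - 1, by omega⟩
        simp only [Nat.add_sub_cancel]; ring
      rw [h4] at h2
      rw [h1, Nat.add_sub_cancel]
      push_cast
      linarith

/-- The elementary estimate. -/
lemma real_bound (n : ℕ) (hn : 0 < n) (q V R y D N : ℝ) (hq : 0 < q) (hV : 0 < V) (hy : 1 ≤ y)
    (hD : 1 ≤ D) (hR0 : 0 ≤ R) (hR : R ≤ 2 ^ n * D) (hVq : q * V = 1) (hVD : V ≤ D)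
    (hup : N ≤ q * (y + R) ^ n) (hlow : q * (max (y - R) 0) ^ n ≤ N) :
    |N - 1 - q * y ^ n| ≤ q * (Cn n * D ^ n) * y ^ (n - 1) := by
  have hy0 : 0 < y := by linarith
  have h1R : 1 + R ≤ (1 + 2 ^ n) * D := by nlinarith
  have hDn : D ≤ D ^ n := le_self_pow₀ hD hn.ne'
  have hyn : 1 ≤ y ^ (n - 1) := one_le_pow₀ hy
  have hE : (1 + R) ^ n ≤ (1 + 2 ^ n) ^ n * D ^ n := by
    rw [← mul_pow]
    exact pow_le_pow_left₀ (by linarith) h1R n
  have hR1 : R ≤ (1 + R) ^ n := by
    have : (1 + R) ≤ (1 + R) ^ n := le_self_pow₀ (by linarith) hn.ne'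
    linarith
  have hnR : (n : ℝ) * (1 + R) ^ n ≤ Cn n * D ^ n - D ^ n := by
    have : (n : ℝ) * (1 + R) ^ n ≤ n * ((1 + 2 ^ n) ^ n * D ^ n) :=
      mul_le_mul_of_nonneg_left hE (Nat.cast_nonneg _)
    unfold Cn
    nlinarith
  rw [abs_le]
  constructor
  · -- lower bound
    have h1 : y ^ n - (max (y - R) 0) ^ n ≤ n * (1 + R) ^ n * y ^ (n - 1) := by
      rcases le_total R y with h | h
      · rw [max_eq_left (by linarith)]
        have h2 := pow_sub_le' (x := y) (y := y - R) (by linarith) (by linarith) n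
        have h3 : y - (y - R) = R := by ring
        rw [h3] at h2
        refine h2.trans ?_
        exact mul_le_mul_of_nonneg_right (mul_le_mul_of_nonneg_left hR1 (Nat.cast_nonneg _))
          (by positivity)
      · rw [max_eq_right (by linarith), zero_pow hn.ne', sub_zero]
        have h2 : y ^ n = y * y ^ (n - 1) := by
          rw [← pow_succ', Nat.sub_add_cancel hn]
        rw [h2]
        refine mul_le_mul_of_nonneg_right ?_ (by positivity)
        have h3 : (1 : ℝ) ≤ n := by exact_mod_cast hn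
        nlinarith
    have h2 : 1 ≤ q * (D ^ n * y ^ (n - 1)) := by
      rw [← hVq]
      refine mul_le_mul_of_nonneg_left ?_ hq.le
      nlinarith
    have h3 : q * (y ^ n - (max (y - R) 0) ^ n) ≤ q * ((Cn n * D ^ n - D ^ n) * y ^ (n - 1)) := by
      refine mul_le_mul_of_nonneg_left (h1.trans ?_) hq.le
      exact mul_le_mul_of_nonneg_right hnR (by positivity)
    nlinarith
  · have h1 : (y + R) ^ n - y ^ n ≤ n * (1 + R) ^ n * y ^ (n - 1) := by
      have h2 := pow_sub_le' (x := y + R) (y := y) hy0.le (by linarith) n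
      have h3 : y + R - y = R := by ring
      rw [h3] at h2
      refine h2.trans ?_
      have h4 : (y + R) ^ (n - 1) ≤ (1 + R) ^ (n - 1) * y ^ (n - 1) := by
        rw [← mul_pow]
        exact pow_le_pow_left₀ (by linarith) (by nlinarith) _
      have h5 : (1 + R) ^ n = (1 + R) * (1 + R) ^ (n - 1) := by
        rw [← pow_succ', Nat.sub_add_cancel hn]
      rw [h5]
      have h6 : (n : ℝ) * R * (y + R) ^ (n - 1) ≤ n * R * ((1 + R) ^ (n - 1) * y ^ (n - 1)) :=
        mul_le_mul_of_nonneg_left h4 (by positivity)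
      refine h6.trans ?_
      have h7 : (0 : ℝ) ≤ n * ((1 + R) ^ (n - 1) * y ^ (n - 1)) := by positivity
      nlinarith
    have h3 : q * ((y + R) ^ n - y ^ n) ≤ q * ((Cn n * D ^ n - D ^ n) * y ^ (n - 1)) := by
      refine mul_le_mul_of_nonneg_left (h1.trans ?_) hq.le
      exact mul_le_mul_of_nonneg_right hnR (by positivity)
    have h4 : 0 ≤ q * (D ^ n * y ^ (n - 1)) := by positivity
    nlinarith

variable {K : Type} [Field K] [NumberField K]

/-- The volume of the unit ball of the mixed space. -/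
noncomputable def om (K : Type) [Field K] [NumberField K] : ℝ := (convexBodyLTFactor K : ℝ)

/-- The covolume of the ring of integers. -/
noncomputable def V0 (K : Type) [Field K] [NumberField K] : ℝ :=
  (2⁻¹) ^ nrComplexPlaces K * √|discr K|

lemma one_le_om : 1 ≤ om K := by
  have := one_le_convexBodyLTFactor K
  exact_mod_cast this

lemma one_le_absD : (1 : ℝ) ≤ |(discr K : ℝ)| := by
  have h := Int.one_le_abs (discr_ne_zero K)
  exact_mod_cast h

lemma V0_pos : 0 < V0 K := by
  unfold V0
  have : (0 : ℝ) < |(discr K : ℝ)| := lt_of_lt_of_le one_pos one_le_absD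
  have h2 : 0 < √|(discr K : ℝ)| := Real.sqrt_pos.2 this
  positivity

lemma V0_le : V0 K ≤ |(discr K : ℝ)| := by
  unfold V0
  have h1 : √|(discr K : ℝ)| ≤ |(discr K : ℝ)| := by
    rw [Real.sqrt_le_left (abs_nonneg _)]
    have := one_le_absD (K := K)
    nlinarith
  have h2 : ((2 : ℝ)⁻¹) ^ nrComplexPlaces K ≤ 1 := pow_le_one₀ (by norm_num) (by norm_num)
  have h3 : (0 : ℝ) ≤ √|(discr K : ℝ)| := Real.sqrt_nonneg _
  calc ((2 : ℝ)⁻¹) ^ nrComplexPlaces K * √|(discr K : ℝ)| ≤ 1 * √|(discr K : ℝ)| :=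
        mul_le_mul_of_nonneg_right h2 h3
    _ ≤ _ := by rw [one_mul]; exact h1

lemma real_ball (T : ℝ) (hT : 0 ≤ T) :
    (volume : Measure (mixedSpace K)).real (Metric.ball 0 T) =
      om K * T ^ Module.finrank ℚ K := by
  have h1 : (volume : Measure (mixedSpace K)).real (Metric.ball 0 1) = om K := by
    rw [Measure.real, volume_ball_one, om]
    simp
  rw [Measure.real, Measure.addHaar_ball _ _ hT, ENNReal.toReal_mul,
    ENNReal.toReal_ofReal (by positivity), ← Measure.real, h1, mixedEmbedding.finrank, mul_comm]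

lemma real_closedBall (T : ℝ) (hT : 0 ≤ T) :
    (volume : Measure (mixedSpace K)).real (Metric.closedBall 0 T) =
      om K * T ^ Module.finrank ℚ K := by
  rw [Measure.real, Measure.addHaar_closedBall_eq_addHaar_ball, ← Measure.real, real_ball T hT]

lemma real_closedBall_max (T : ℝ) :
    om K * (max T 0) ^ Module.finrank ℚ K ≤
    (volume : Measure (mixedSpace K)).real (Metric.closedBall 0 T) := by
  rcases le_total 0 T with h | h
  · rw [max_eq_left h, real_closedBall T h]
  · rw [max_eq_right h, zero_pow Module.finrank_pos.ne', mul_zero]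
    exact measureReal_nonneg

theorem count_ideal (b : (Ideal (𝓞 K))⁰) (l : logSpace K) {lam y : ℝ} (hl : 0 < lam)
    (hpow : lam ^ Module.finrank ℚ K = Ideal.absNorm (b : Ideal (𝓞 K))) (hy : 1 ≤ y) :
    |((AT b l (lam * y)).ncard : ℝ) - 1 - om K / V0 K * y ^ Module.finrank ℚ K| ≤
      om K / V0 K * (Cn (Module.finrank ℚ K) * |(discr K : ℝ)| ^ Module.finrank ℚ K) *
        y ^ (Module.finrank ℚ K - 1) := by
  set n := Module.finrank ℚ K with hn
  have hom := one_le_om (K := K)
  have hom0 : 0 < om K := by linarith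
  have hV0 := V0_pos (K := K)
  have hcov : ZLattice.covolume (LL b l) volume = lam ^ n * V0 K := by
    rw [covolume_LL, hpow, V0]
  have hball : (volume : Measure (mixedSpace K)).real (Metric.ball 0 (lam / 2)) =
      om K * (lam / 2) ^ n := real_ball _ (by positivity)
  have hlam : (0 : ℝ) < lam ^ n := by positivity
  set R : ℝ := 2 ^ n * V0 K / om K with hR
  have hrad : ∀ z : mixedSpace K, ∃ x ∈ LL b l, ‖z - x‖ ≤ lam * R := by
    intro z
    obtain ⟨x, hx, hzx⟩ := H8.RI.covering (volume : Measure (mixedSpace K)) (LL b l) hl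
      (fun x hx hx0 => min_LL b l hpow x hx hx0) z
    refine ⟨x, hx, hzx.le.trans (le_of_eq ?_)⟩
    rw [hcov, hball, hR, div_pow]
    field_simp
  obtain ⟨h1, h2⟩ := H8.RI.count_bounds (volume : Measure (mixedSpace K)) (LL b l) hrad (lam * y)
  rw [ncard_AT, hcov] at h1 h2
  have hR0 : 0 ≤ R := by positivity
  have hy0 : 0 < y := by linarith
  refine real_bound n (hn ▸ Module.finrank_pos) (om K / V0 K) (V0 K / om K) R y
    |(discr K : ℝ)| _ (by positivity) (by positivity) hy one_le_absD hR0 ?_ ?_ ?_ ?_ ?_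
  · rw [hR, mul_div_assoc]
    refine mul_le_mul_of_nonneg_left ?_ (by positivity)
    rw [div_le_iff₀ hom0]
    have := V0_le (K := K)
    nlinarith [abs_nonneg (discr K : ℝ)]
  · field_simp
  · rw [div_le_iff₀ hom0]
    have := V0_le (K := K)
    nlinarith [abs_nonneg (discr K : ℝ)]
  · have h3 : lam * y + lam * R = lam * (y + R) := by ring
    rw [h3, real_closedBall _ (by positivity), mul_pow] at h2
    rw [div_mul_eq_mul_div, le_div_iff₀ hV0]
    have h4 : (((AT b l (lam * y)).ncard : ℝ) * V0 K) * lam ^ n ≤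
        (om K * (y + R) ^ n) * lam ^ n := by
      calc _ = ((AT b l (lam * y)).ncard : ℝ) * (lam ^ n * V0 K) := by ring
        _ ≤ _ := h2
        _ = _ := by ring
    exact le_of_mul_le_mul_right h4 hlam
  · have h3 : lam * y - lam * R = lam * (y - R) := by ring
    rw [h3] at h1
    have h5 := (real_closedBall_max (K := K) (lam * (y - R))).trans h1
    have h6 : max (lam * (y - R)) 0 = lam * max (y - R) 0 := by
      rw [mul_max_of_nonneg _ _ hl.le, mul_zero]
    rw [h6, mul_pow] at h5
    rw [div_mul_eq_mul_div, div_le_iff₀ hV0]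
    have h4 : (om K * (max (y - R) 0) ^ n) * lam ^ n ≤
        (((AT b l (lam * y)).ncard : ℝ) * V0 K) * lam ^ n := by
      calc _ = om K * (lam ^ n * (max (y - R) 0) ^ n) := by ring
        _ ≤ _ := h5
        _ = _ := by ring
    exact le_of_mul_le_mul_right h4 hlam

end H77.UZ
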