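import Pool.Agent.H77.UZ.Rzs

/-!
# Uniform zeta, chapter RIESZ MEAN OF THE IDEALS: the core theorem
-/

namespace H77.UZ

open NumberField NumberField.InfinitePlace NumberField.Units NumberField.mixedEmbedding
open NumberField.Units.dirichletUnitTheorem MeasureTheory nonZeroDivisors

open scoped Classical

variable {K : Type} [Field K] [NumberField K]

lemma Rz_nonneg (r : ℕ) (x : ℝ) (hx : 0 < x) : 0 ≤ Rz r (an K) x := by
  refine Finset.sum_nonneg fun m hm => ?_
  rw [Finset.mem_Icc] at hm
  have hm1 : (1 : ℝ) ≤ m := by exact_mod_cast hm.1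
  have hm2 : (m : ℝ) ≤ x := (Nat.le_floor_iff hx.le).1 hm.2
  refine mul_nonneg (Nat.cast_nonneg _) (pow_nonneg (Real.log_nonneg ?_) _)
  rw [le_div_iff₀ (by linarith), one_mul]
  exact hm2

/-- The bounds for a class. -/
lemma class_bounds (b : (Ideal (𝓞 K))⁰) (x y : ℝ) (hy : 1 ≤ y)
    (hxy : y ^ Module.finrank ℚ K = x) :
    volume (FD K) * ENNReal.ofReal (om K / V0 K * x - om K / V0 K *
        (Cn (Module.finrank ℚ K) * |(discr K : ℝ)| ^ Module.finrank ℚ K) *
        y ^ (Module.finrank ℚ K - 1)) ≤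
      (torsionOrder K : ENNReal) * sig K * ∑' I : XI b, wt (Units.rank K) x I.1 ∧
    (torsionOrder K : ENNReal) * sig K * ∑' I : XI b, wt (Units.rank K) x I.1 ≤
      volume (FD K) * ENNReal.ofReal (om K / V0 K * x + om K / V0 K *
        (Cn (Module.finrank ℚ K) * |(discr K : ℝ)| ^ Module.finrank ℚ K) *
        y ^ (Module.finrank ℚ K - 1)) := by
  set n := Module.finrank ℚ K with hn
  have hn0 : 0 < n := Module.finrank_pos
  have hb := absNorm_pos b
  set lam : ℝ := (Ideal.absNorm (b : Ideal (𝓞 K)) : ℝ) ^ (1 / (n : ℝ)) with hlam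
  have hl : 0 < lam := Real.rpow_pos_of_pos hb _
  have hpow : lam ^ n = Ideal.absNorm (b : Ideal (𝓞 K)) := by
    rw [hlam, ← Real.rpow_natCast, ← Real.rpow_mul hb.le, one_div,
      inv_mul_cancel₀ (by exact_mod_cast hn0.ne'), Real.rpow_one]
  have hy0 : 0 < y := by linarith
  have hx0 : 0 < x := by rw [← hxy]; positivity
  have hT : (lam * y) ^ n = x * Ideal.absNorm (b : Ideal (𝓞 K)) := by
    rw [mul_pow, hpow, hxy, mul_comm]
  have hT0 : 0 < lam * y := by positivity
  rw [← class_identity b x (lam * y) hx0 hT0 hT]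
  have hval : ∀ l : logSpace K, ∑' α : YE b, ff (lam * y) α.1 l =
      ENNReal.ofReal ((AT b l (lam * y)).ncard - 1) := fun l => tsum_AT b l _ hT0.le
  simp_rw [hval]
  have hcnt := fun l : logSpace K => count_ideal b l hl hpow hy
  rw [← hn, hxy] at hcnt
  constructor
  · calc volume (FD K) * ENNReal.ofReal _
        = ∫⁻ _ in FD K, ENNReal.ofReal (om K / V0 K * x - om K / V0 K *
        (Cn n * |(discr K : ℝ)| ^ n) * y ^ (n - 1)) := by
          rw [setLIntegral_const, mul_comm]
      _ ≤ _ := by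
          refine lintegral_mono fun l => ENNReal.ofReal_le_ofReal ?_
          have := (abs_le.1 (hcnt l)).1
          linarith
  · calc ∫⁻ l in FD K, ENNReal.ofReal ((AT b l (lam * y)).ncard - 1)
        ≤ ∫⁻ _ in FD K, ENNReal.ofReal (om K / V0 K * x + om K / V0 K *
        (Cn n * |(discr K : ℝ)| ^ n) * y ^ (n - 1)) := by
          refine lintegral_mono fun l => ENNReal.ofReal_le_ofReal ?_
          have := (abs_le.1 (hcnt l)).2
          linarith
      _ = _ := by rw [setLIntegral_const, mul_comm]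

/-- The main constant. -/
noncomputable def kap (K : Type) [Field K] [NumberField K] : ℝ :=
  (classNumber K : ℝ) * (volume (FD K)).toReal * (om K / V0 K) /
    ((torsionOrder K : ℝ) * (sig K).toReal)

lemma kap_pos : 0 < kap K := by
  have h1 : (0 : ℝ) < classNumber K := by
    have := Fintype.card_pos (α := ClassGroup (𝓞 K))
    exact_mod_cast this
  have h2 : 0 < (volume (FD K)).toReal := ENNReal.toReal_pos vol_FD_ne_zero vol_FD_ne_top
  have h3 : 0 < om K := lt_of_lt_of_le one_pos one_le_om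
  have h4 := V0_pos (K := K)
  have h5 : (0 : ℝ) < torsionOrder K := by exact_mod_cast torsionOrder_pos K
  have h6 : 0 < (sig K).toReal := ENNReal.toReal_pos sig_ne_zero sig_ne_top
  unfold kap
  positivity

/-- The Riesz mean of the ideals of a number field. -/
theorem field_bound (x : ℝ) (hx : 1 ≤ x) :
    |Rz (Units.rank K) (an K) x - kap K * x| ≤
      kap K * (Cn (Module.finrank ℚ K) * |(discr K : ℝ)| ^ Module.finrank ℚ K) *
        x ^ (1 - 1 / (Module.finrank ℚ K : ℝ)) := by
  set n := Module.finrank ℚ K with hn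
  have hn0 : 0 < n := Module.finrank_pos
  have hn0' : (0 : ℝ) < n := by exact_mod_cast hn0
  have hx0 : 0 < x := by linarith
  set y : ℝ := x ^ (1 / (n : ℝ)) with hydef
  have hy : 1 ≤ y := Real.one_le_rpow hx (by positivity)
  have hxy : y ^ n = x := by
    rw [hydef, ← Real.rpow_natCast, ← Real.rpow_mul hx0.le, one_div,
      inv_mul_cancel₀ hn0'.ne', Real.rpow_one]
  have hyn : y ^ (n - 1) = x ^ (1 - 1 / (n : ℝ)) := by
    rw [hydef, ← Real.rpow_natCast, ← Real.rpow_mul hx0.le]
    congr 1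
    rw [Nat.cast_sub hn0]
    push_cast
    field_simp
  set e : ℝ := om K / V0 K * (Cn n * |(discr K : ℝ)| ^ n) * y ^ (n - 1) with he
  have hq : 0 < om K / V0 K := div_pos (lt_of_lt_of_le one_pos one_le_om) V0_pos
  have he0 : 0 ≤ e := by
    have h1 := one_le_Cn n
    have : 0 ≤ Cn n := by linarith
    positivity
  -- the sum over the classes
  have hS : ∑' I : (Ideal (𝓞 K))⁰, wt (Units.rank K) x I =
      ENNReal.ofReal (Rz (Units.rank K) (an K) x) := tsum_wt _ x hx0
  rw [tsum_ideals] at hS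
  have hcard : (Finset.univ : Finset (ClassGroup (𝓞 K))).card = classNumber K := rfl
  have hlow : (classNumber K : ENNReal) * (volume (FD K) * ENNReal.ofReal (om K / V0 K * x - e)) ≤
      (torsionOrder K : ENNReal) * sig K * ENNReal.ofReal (Rz (Units.rank K) (an K) x) := by
    rw [← hS, Finset.mul_sum, ← hcard, ← nsmul_eq_mul, ← Finset.sum_const]
    exact Finset.sum_le_sum fun C _ => (class_bounds (bC C) x y hy hxy).1
  have hup : (torsionOrder K : ENNReal) * sig K * ENNReal.ofReal (Rz (Units.rank K) (an K) x) ≤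
      (classNumber K : ENNReal) * (volume (FD K) * ENNReal.ofReal (om K / V0 K * x + e)) := by
    have hc : (classNumber K : ENNReal) *
        (volume (FD K) * ENNReal.ofReal (om K / V0 K * x + e)) =
        ∑ _C : ClassGroup (𝓞 K), volume (FD K) * ENNReal.ofReal (om K / V0 K * x + e) := by
      rw [Finset.sum_const, hcard, nsmul_eq_mul]
    rw [← hS, Finset.mul_sum, hc]
    exact Finset.sum_le_sum fun C _ => (class_bounds (bC C) x y hy hxy).2
  have hR := Rz_nonneg (K := K) (Units.rank K) x hx0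
  have hvt := vol_FD_ne_top (K := K)
  have hst := sig_ne_top (K := K)
  have hlow' := ENNReal.toReal_mono (ENNReal.mul_ne_top (ENNReal.mul_ne_top
    (ENNReal.natCast_ne_top _) hst) ENNReal.ofReal_ne_top) hlow
  have hup' := ENNReal.toReal_mono (ENNReal.mul_ne_top (ENNReal.natCast_ne_top _)
    (ENNReal.mul_ne_top hvt ENNReal.ofReal_ne_top)) hup
  rw [ENNReal.toReal_mul, ENNReal.toReal_mul, ENNReal.toReal_mul, ENNReal.toReal_mul,
    ENNReal.toReal_natCast, ENNReal.toReal_natCast, ENNReal.toReal_ofReal hR] at hlow' hup'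
  rw [ENNReal.toReal_ofReal (by positivity)] at hup'
  have hlow2 : (classNumber K : ℝ) * ((volume (FD K)).toReal * (om K / V0 K * x - e)) ≤
      (torsionOrder K : ℝ) * (sig K).toReal * Rz (Units.rank K) (an K) x := by
    refine le_trans ?_ hlow'
    refine mul_le_mul_of_nonneg_left ?_ (Nat.cast_nonneg _)
    refine mul_le_mul_of_nonneg_left ?_ ENNReal.toReal_nonneg
    rw [ENNReal.toReal_ofReal']
    exact le_max_left _ _
  have h5 : (0 : ℝ) < torsionOrder K := by exact_mod_cast torsionOrder_pos K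
  have h6 : 0 < (sig K).toReal := ENNReal.toReal_pos sig_ne_zero sig_ne_top
  have h7 : (0 : ℝ) < (torsionOrder K : ℝ) * (sig K).toReal := mul_pos h5 h6
  have hkap : kap K * ((torsionOrder K : ℝ) * (sig K).toReal) =
      (classNumber K : ℝ) * (volume (FD K)).toReal * (om K / V0 K) := by
    unfold kap
    field_simp
  rw [← hyn]
  set W : ℝ := (torsionOrder K : ℝ) * (sig K).toReal with hW
  set E : ℝ := Cn n * |(discr K : ℝ)| ^ n with hE
  have h8 : W * (Rz (Units.rank K) (an K) x) ≤ W * (kap K * x + kap K * E * y ^ (n - 1)) := by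
    have : W * (kap K * x + kap K * E * y ^ (n - 1)) =
        (kap K * W) * x + (kap K * W) * (E * y ^ (n - 1)) := by ring
    rw [this, hkap]
    rw [he] at hup'
    linarith
  have h9 : W * (kap K * x - kap K * E * y ^ (n - 1)) ≤ W * (Rz (Units.rank K) (an K) x) := by
    have : W * (kap K * x - kap K * E * y ^ (n - 1)) =
        (kap K * W) * x - (kap K * W) * (E * y ^ (n - 1)) := by ring
    rw [this, hkap]
    rw [he] at hlow2
    linarith
  have h10 := le_of_mul_le_mul_left h8 h7
  have h11 := le_of_mul_le_mul_left h9 h7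
  rw [abs_le]
  constructor <;> linarith

lemma Cn_mono {d n : ℕ} (h : d ≤ n) : Cn d ≤ Cn n := by
  unfold Cn
  have h1 : (1 + 2 ^ d : ℝ) ^ d ≤ (1 + 2 ^ n) ^ n := by
    have h2 : (2 : ℝ) ^ d ≤ 2 ^ n := pow_le_pow_right₀ (by norm_num) h
    calc (1 + 2 ^ d : ℝ) ^ d ≤ (1 + 2 ^ n) ^ d := pow_le_pow_left₀ (by positivity) (by linarith) _
      _ ≤ (1 + 2 ^ n) ^ n := pow_le_pow_right₀ (by
          have : (0 : ℝ) < 2 ^ n := by positivity
          linarith) h
  have h3 : (d : ℝ) ≤ n := by exact_mod_cast h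
  have h4 : (d : ℝ) * (1 + 2 ^ d) ^ d ≤ n * (1 + 2 ^ n) ^ n :=
    mul_le_mul h3 h1 (by positivity) (by positivity)
  linarith

/-- The core theorem of the chapter: the Riesz mean, of order the rank of the unit group, of the
number of ideals, with an error which is relative to the main term and polynomial in the
discriminant. -/
theorem core (n : ℕ) (hn : 0 < n) : ∃ (A : ℕ) (C : ℝ), 1 ≤ C ∧
    ∀ (k : Type) [Field k] [NumberField k], Module.finrank ℚ k ≤ n → ∃ kap : ℝ, 0 < kap ∧
      ∀ x : ℝ, 1 ≤ x →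
        |Rz (Units.rank k) (an k) x - kap * x| ≤
          kap * (C * |(discr k : ℝ)| ^ A) * x ^ (1 - 1 / (n : ℝ)) := by
  refine ⟨n, Cn n, one_le_Cn n, fun k _ _ hk => ⟨kap k, kap_pos, fun x hx => ?_⟩⟩
  refine (field_bound x hx).trans ?_
  have hd0 : (0 : ℝ) < Module.finrank ℚ k := by exact_mod_cast Module.finrank_pos
  have hn0 : (0 : ℝ) < n := by exact_mod_cast hn
  have hdn : (Module.finrank ℚ k : ℝ) ≤ n := by exact_mod_cast hk
  have h1 : x ^ (1 - 1 / (Module.finrank ℚ k : ℝ)) ≤ x ^ (1 - 1 / (n : ℝ)) := by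
    refine Real.rpow_le_rpow_of_exponent_le hx ?_
    have := one_div_le_one_div_of_le hd0 hdn
    linarith
  have h2 : Cn (Module.finrank ℚ k) * |(discr k : ℝ)| ^ Module.finrank ℚ k ≤
      Cn n * |(discr k : ℝ)| ^ n := by
    refine mul_le_mul (Cn_mono hk) (pow_le_pow_right₀ one_le_absD hk) (by positivity) ?_
    linarith [one_le_Cn n]
  have h3 := kap_pos (K := k)
  have h4 : 0 ≤ Cn n * |(discr k : ℝ)| ^ n := by
    have := one_le_Cn n
    have : 0 ≤ Cn n := by linarith
    positivity
  exact mul_le_mul (mul_le_mul_of_nonneg_left h2 h3.le) h1 (by positivity) (by positivity)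

end H77.UZ
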