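import Mathlib

/-!
# Uniform zeta, chapter RIESZ MEAN OF THE IDEALS (THEOREM CP, MP_cda23d_nt): definitions

`an k m` is the number of ideals of norm `m`, `Rz r a x` the Riesz sum of order `r`.
-/

namespace H77.UZ

open NumberField

/-- The number of ideals of norm `m` of the ring of integers of `k`. -/
noncomputable def an (k : Type) [Field k] [NumberField k] (m : ℕ) : ℝ :=
  (Nat.card {I : Ideal (𝓞 k) // Ideal.absNorm I = m} : ℝ)

/-- The Riesz sum of order `r`: the sum over `1 ≤ m ≤ x` of `a m * (log (x / m)) ^ r`. -/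
noncomputable def Rz (r : ℕ) (a : ℕ → ℝ) (x : ℝ) : ℝ :=
  ∑ m ∈ Finset.Icc 1 ⌊x⌋₊, a m * (Real.log (x / m)) ^ r

end H77.UZ
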