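import Pool.Agent.H77.UZ.Scal

/-!
# Uniform zeta, chapter RIESZ MEAN OF THE IDEALS: the volume of the simplex
-/

namespace H77.UZ

open NumberField NumberField.InfinitePlace NumberField.Units NumberField.mixedEmbedding
open NumberField.Units.dirichletUnitTheorem MeasureTheory

open scoped Classical Pointwise

variable {K : Type} [Field K] [NumberField K]

/-- The simplex of size `S` in the logarithmic space. -/
def smp (K : Type) [Field K] [NumberField K] (S : ℝ) : Set (logSpace K) :=
  {l | (∀ v, 0 ≤ l v) ∧ ∑ v, l v ≤ S}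

/-- The volume of the unit simplex of the logarithmic space. -/
noncomputable def sig (K : Type) [Field K] [NumberField K] : ENNReal := volume (smp K 1)

lemma isClosed_smp (S : ℝ) : IsClosed (smp K S) := by
  have h1 : smp K S = (⋂ v, {l : logSpace K | 0 ≤ l v}) ∩ {l | ∑ v, l v ≤ S} := by
    ext l
    simp [smp]
  rw [h1]
  refine IsClosed.inter (isClosed_iInter fun v => ?_) ?_
  · exact isClosed_le continuous_const (continuous_apply v)
  · exact isClosed_le (by fun_prop) continuous_const

lemma sig_ne_top : sig K ≠ ⊤ := by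
  have h1 : smp K 1 ⊆ Metric.closedBall 0 1 := by
    intro l hl
    rw [mem_closedBall_zero_iff, pi_norm_le_iff_of_nonneg zero_le_one]
    intro v
    rw [Real.norm_eq_abs, abs_of_nonneg (hl.1 v)]
    exact le_trans (Finset.single_le_sum (f := fun v => l v) (fun v _ => hl.1 v)
      (Finset.mem_univ v)) hl.2
  exact ((measure_mono h1).trans_lt measure_closedBall_lt_top).ne

lemma sig_ne_zero : sig K ≠ 0 := by
  have hopen : IsOpen ((⋂ v, {l : logSpace K | 0 < l v}) ∩ {l | ∑ v, l v < 1}) := by
    refine IsOpen.inter (isOpen_iInter_of_finite fun v => ?_) ?_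
    · exact isOpen_lt continuous_const (continuous_apply v)
    · exact isOpen_lt (by fun_prop) continuous_const
  have hne : ((⋂ v, {l : logSpace K | 0 < l v}) ∩ {l | ∑ v, l v < 1}).Nonempty := by
    refine ⟨fun _ => 1 / ((Fintype.card {w : InfinitePlace K // w ≠ w₀} : ℝ) + 1), ?_, ?_⟩
    · simp only [Set.mem_iInter, Set.mem_ofPred_eq]
      intro v
      positivity
    · simp only [Set.mem_ofPred_eq, Finset.sum_const, Finset.card_univ, nsmul_eq_mul]
      rw [mul_one_div, div_lt_one (by positivity)]
      linarith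
  have h1 : ((⋂ v, {l : logSpace K | 0 < l v}) ∩ {l | ∑ v, l v < 1}) ⊆ smp K 1 := by
    rintro l ⟨h1, h2⟩
    refine ⟨fun v => ?_, le_of_lt h2⟩
    have := Set.mem_iInter.1 h1 v
    exact le_of_lt this
  have h2 : 0 < volume ((⋂ v, {l : logSpace K | 0 < l v}) ∩ {l | ∑ v, l v < 1}) :=
    hopen.measure_pos _ hne
  exact (h2.trans_le (measure_mono h1)).ne'

lemma card_ne : Fintype.card {w : InfinitePlace K // w ≠ w₀} = Units.rank K := by
  rw [Units.rank, Fintype.card_subtype_compl, Fintype.card_subtype_eq]

lemma smp_eq_smul (S : ℝ) (hS : 0 ≤ S) : smp K S = S • smp K 1 := by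
  rcases hS.eq_or_lt with h | h
  · subst h
    rw [Set.zero_smul_set ⟨0, by simp [smp]⟩]
    ext l
    constructor
    · rintro ⟨h1, h2⟩
      rw [Set.mem_zero]
      funext v
      refine le_antisymm ?_ (h1 v)
      exact le_trans (Finset.single_le_sum (f := fun v => l v) (fun v _ => h1 v)
        (Finset.mem_univ v)) h2
    · intro hl
      rw [Set.mem_zero] at hl
      subst hl
      simp [smp]
  · ext l
    rw [Set.mem_smul_set_iff_inv_smul_mem₀ h.ne']
    simp only [smp, Set.mem_ofPred_eq, Pi.smul_apply, smul_eq_mul]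
    rw [← Finset.mul_sum, inv_mul_le_iff₀ h, mul_one]
    refine and_congr (forall_congr' fun v => ?_) Iff.rfl
    rw [mul_nonneg_iff_of_pos_left (inv_pos.2 h)]

lemma volume_smp (S : ℝ) (hS : 0 ≤ S) :
    volume (smp K S) = ENNReal.ofReal (S ^ Units.rank K) * sig K := by
  rw [smp_eq_smul S hS, Measure.addHaar_smul, sig]
  congr 2
  rw [Module.finrank_fintype_fun_eq_card, card_ne, abs_of_nonneg (pow_nonneg hS _)]

lemma smp_neg (S : ℝ) (hS : S < 0) : smp K S = ∅ := by
  rw [Set.eq_empty_iff_forall_notMem]
  rintro l ⟨h1, h2⟩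
  have := Finset.sum_nonneg (fun v (_ : v ∈ Finset.univ) => h1 v)
  linarith

/-- The volume of the set of the vectors whose coordinates are bounded from below. -/
theorem volume_sg_ge (c : InfinitePlace K → ℝ) :
    volume {l : logSpace K | ∀ w, - c w ≤ sg l w} =
      if 0 ≤ ∑ w, (w.mult : ℝ) * c w then
        ENNReal.ofReal ((∑ w, (w.mult : ℝ) * c w) ^ Units.rank K) * sig K else 0 := by
  have h1 : {l : logSpace K | ∀ w, - c w ≤ sg l w} =
      (fun l => l + fun v : {w : InfinitePlace K // w ≠ w₀} => (v.1.mult : ℝ) * c v.1) ⁻¹'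
        (smp K (∑ w, (w.mult : ℝ) * c w)) := by
    ext l
    simp only [Set.mem_preimage, smp, Set.mem_ofPred_eq, Pi.add_apply]
    constructor
    · intro h
      refine ⟨fun v => ?_, ?_⟩
      · have h2 := mult_sg_ne l v
        have h3 := mul_le_mul_of_nonneg_left (h v.1) (mult_pos' v.1).le
        rw [h2] at h3
        linarith
      · rw [Finset.sum_add_distrib, Fintype.sum_eq_add_sum_subtype_ne _ (w₀ : InfinitePlace K)]
        have h2 := mult_sg_w₀ l
        have h3 := mul_le_mul_of_nonneg_left (h w₀) (mult_pos' (w₀ : InfinitePlace K)).le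
        rw [h2] at h3
        linarith
    · rintro ⟨h2, h3⟩ w
      by_cases hw : w = w₀
      · subst hw
        rw [Finset.sum_add_distrib, Fintype.sum_eq_add_sum_subtype_ne _ (w₀ : InfinitePlace K)]
          at h3
        have h4 := mult_sg_w₀ l
        have h5 := mult_pos' (w₀ : InfinitePlace K)
        have h6 : ((w₀ : InfinitePlace K).mult : ℝ) * (- c w₀) ≤
            ((w₀ : InfinitePlace K).mult : ℝ) * sg l w₀ := by
          rw [h4]; linarith
        exact le_of_mul_le_mul_left h6 h5
      · have h4 := mult_sg_ne l ⟨w, hw⟩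
        have h5 := mult_pos' w
        have h7 := h2 ⟨w, hw⟩
        have h6 : ((w : InfinitePlace K).mult : ℝ) * (- c w) ≤
            ((w : InfinitePlace K).mult : ℝ) * sg l w := by
          rw [h4]
          simp only at h7
          linarith
        exact le_of_mul_le_mul_left h6 h5
  rw [h1, measure_preimage_add_right]
  split_ifs with h
  · exact volume_smp _ h
  · rw [smp_neg _ (not_le.1 h), measure_empty]

end H77.UZ
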