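import Pool.Agent.H77.UZ.Scal

/-!
# Uniform zeta, chapter RIESZ MEAN OF THE IDEALS: unfolding over the unit lattice
-/

namespace H77.UZ

open NumberField NumberField.InfinitePlace NumberField.Units NumberField.mixedEmbedding
open NumberField.Units.dirichletUnitTheorem MeasureTheory

open scoped Classical

variable {K : Type} [Field K] [NumberField K]

/-- A fundamental domain of the unit lattice. -/
noncomputable def FD (K : Type) [Field K] [NumberField K] : Set (logSpace K) :=
  ZSpan.fundamentalDomain
    ((Module.Free.chooseBasis ℤ (unitLattice K)).ofZLatticeBasis ℝ (unitLattice K))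

lemma isFD : IsAddFundamentalDomain (unitLattice K) (FD K) (volume : Measure (logSpace K)) :=
  ZLattice.isAddFundamentalDomain _ _

lemma measurableSet_FD : MeasurableSet (FD K) := ZSpan.fundamentalDomain_measurableSet _

lemma vol_FD_ne_zero : volume (FD K) ≠ 0 := ZSpan.measure_fundamentalDomain_ne_zero _

lemma vol_FD_ne_top : volume (FD K) ≠ ⊤ :=
  (Bornology.IsBounded.measure_lt_top (ZSpan.fundamentalDomain_isBounded _)).ne

/-- The logarithmic vector of a unit, as an element of the unit lattice. -/
noncomputable def lgU (u : (𝓞 K)ˣ) : unitLattice K :=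
  ⟨logEmbedding K (Additive.ofMul u), ⟨Additive.ofMul u, trivial, rfl⟩⟩

lemma lgU_surj (m : unitLattice K) : ∃ u : (𝓞 K)ˣ, lgU u = m := by
  obtain ⟨m, ⟨u, -, hu⟩⟩ := m
  exact ⟨Additive.toMul u, Subtype.ext hu⟩

/-- The fibre of the logarithmic map is a coset of the torsion. -/
noncomputable def fibreEquiv (u₀ : (𝓞 K)ˣ) :
    {u : (𝓞 K)ˣ // lgU u = lgU u₀} ≃ torsion K where
  toFun u := ⟨u.1 * u₀⁻¹, by
    rw [← logEmbedding_eq_zero_iff, ofMul_mul, ofMul_inv, map_add, map_neg]
    have h := congrArg (fun m : unitLattice K => (m : logSpace K)) u.2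
    simp only [lgU] at h
    rw [h, add_neg_cancel]⟩
  invFun t := ⟨t.1 * u₀, by
    apply Subtype.ext
    simp only [lgU]
    rw [ofMul_mul, map_add, logEmbedding_eq_zero_iff.2 t.2, zero_add]⟩
  left_inv u := by
    apply Subtype.ext
    simp
  right_inv t := by
    apply Subtype.ext
    simp

lemma card_fibre (m : unitLattice K) :
    ENat.card {u : (𝓞 K)ˣ // lgU u = m} = (torsionOrder K : ℕ∞) := by
  obtain ⟨u₀, rfl⟩ := lgU_surj m
  rw [ENat.card_congr (fibreEquiv u₀), torsionOrder, ENat.card_eq_coe_natCard]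

lemma tsum_units (g : logSpace K → ENNReal) :
    ∑' u : (𝓞 K)ˣ, g (logEmbedding K (Additive.ofMul u)) =
      (torsionOrder K : ENNReal) * ∑' m : unitLattice K, g m := by
  rw [← (Equiv.sigmaFiberEquiv (lgU (K := K))).tsum_eq, ENNReal.tsum_sigma', ← ENNReal.tsum_mul_left]
  refine tsum_congr fun m => ?_
  have h1 : ∀ u : {u : (𝓞 K)ˣ // lgU u = m}, g (logEmbedding K (Additive.ofMul
      ((Equiv.sigmaFiberEquiv (lgU (K := K))) ⟨m, u⟩))) = g m := by
    intro u
    have h := congrArg (fun m : unitLattice K => (m : logSpace K)) u.2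
    simp only [lgU] at h
    rw [Equiv.sigmaFiberEquiv_apply, h]
  rw [tsum_congr h1, ENNReal.tsum_const, card_fibre]
  simp

theorem unfold_units (g : logSpace K → ENNReal) (hg : Measurable g) :
    ∫⁻ l in FD K, ∑' u : (𝓞 K)ˣ, g (l - logEmbedding K (Additive.ofMul u)) =
      (torsionOrder K : ENNReal) * ∫⁻ l, g l := by
  have h1 : ∀ l : logSpace K, ∑' u : (𝓞 K)ˣ, g (l - logEmbedding K (Additive.ofMul u)) =
      (torsionOrder K : ENNReal) * ∑' m : unitLattice K, g (l - m) :=
    fun l => tsum_units (fun m => g (l - m))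
  simp_rw [h1]
  have h3 : ∀ m : unitLattice K, Measurable (fun l : logSpace K => g (l - m)) := fun m =>
    hg.comp (measurable_sub_const _)
  rw [lintegral_const_mul _ (Measurable.tsum h3),
    lintegral_tsum (fun m => (h3 m).aemeasurable)]
  have i1 : MeasurableVAdd (unitLattice K) (logSpace K) :=
    (inferInstance : MeasurableVAdd (unitLattice K).toAddSubgroup (logSpace K))
  have i2 : VAddInvariantMeasure (unitLattice K) (logSpace K) volume :=
    (inferInstance : VAddInvariantMeasure (unitLattice K).toAddSubgroup (logSpace K) volume)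
  have h2 := (isFD (K := K)).lintegral_eq_tsum' g
  rw [h2]
  congr 1
  refine tsum_congr fun m => ?_
  refine lintegral_congr fun l => ?_
  congr 1
  rw [sub_eq_neg_add]
  rfl

end H77.UZ
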