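import Pool.Agent.H77.UZ.Cnt
import Pool.Agent.H77.UZ.Unf
import Pool.Agent.H77.UZ.Simp

/-!
# Uniform zeta, chapter RIESZ MEAN OF THE IDEALS: the identity
-/

namespace H77.UZ

open NumberField NumberField.InfinitePlace NumberField.Units NumberField.mixedEmbedding
open NumberField.Units.dirichletUnitTheorem MeasureTheory nonZeroDivisors

open scoped Classical

variable {K : Type} [Field K] [NumberField K]

lemma countable_K : Countable K :=
  ((Module.finBasis ℚ K).equivFun.toEquiv.injective).countable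

instance countable_O : Countable (𝓞 K) :=
  have := countable_K (K := K)
  (RingOfIntegers.coe_injective (K := K)).countable

instance countable_U : Countable (𝓞 K)ˣ :=
  (Units.val_injective (α := 𝓞 K)).countable

lemma countable_XI (b : (Ideal (𝓞 K))⁰) : Countable (XI b) := by
  have h : Function.Injective (gI b) := by
    intro I J hIJ
    have h1 := gI_spec b I
    rw [hIJ, ← gI_spec b J] at h1
    exact Subtype.ext (Subtype.ext (mul_right_cancel₀ (nonZeroDivisors.ne_zero b.2) h1))
  exact h.countable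

/-- The indicator of the box. -/
noncomputable def ff (T : ℝ) (g : 𝓞 K) (l : logSpace K) : ENNReal :=
  if ∀ w : InfinitePlace K, cf l w * w (g : K) ≤ T then 1 else 0

lemma measurable_ff (T : ℝ) (g : 𝓞 K) : Measurable (ff (K := K) T g) := by
  unfold ff
  refine Measurable.ite ?_ measurable_const measurable_const
  have h : {l : logSpace K | ∀ w : InfinitePlace K, cf l w * w (g : K) ≤ T} =
      ⋂ w : InfinitePlace K, {l | cf l w * w (g : K) ≤ T} := by
    ext l; simp
  rw [h]
  refine MeasurableSet.iInter fun w => ?_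
  refine measurableSet_le ?_ measurable_const
  unfold cf
  have := (continuous_sg (K := K) w).measurable
  fun_prop

lemma ff_unit_mul (T : ℝ) (g : 𝓞 K) (u : (𝓞 K)ˣ) (l : logSpace K) :
    ff T ((u : 𝓞 K) * g) l = ff T g (l - logEmbedding K (Additive.ofMul u)) := by
  unfold ff
  have h : ∀ w : InfinitePlace K, cf l w * w (((u : 𝓞 K) * g : 𝓞 K) : K) =
      cf (l - logEmbedding K (Additive.ofMul u)) w * w (g : K) := by
    intro w
    have h0 : (((u : 𝓞 K) * g : 𝓞 K) : K) = ((u : 𝓞 K) : K) * (g : K) :=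
      map_mul (algebraMap (𝓞 K) K) _ _
    unfold cf
    rw [h0, sg_sub, sg_logEmbedding, neg_sub, Real.exp_sub, Real.exp_log (Units.pos_at_place u w),
      map_mul, Real.exp_neg]
    field_simp
  simp_rw [h]

lemma lintegral_ff (T : ℝ) (hT : 0 < T) (g : 𝓞 K) (hg : g ≠ 0) :
    ∫⁻ l, ff T g l =
      if 0 ≤ Module.finrank ℚ K * Real.log T - Real.log |(Algebra.norm ℚ (g : K) : ℝ)| then
        ENNReal.ofReal ((Module.finrank ℚ K * Real.log T -
          Real.log |(Algebra.norm ℚ (g : K) : ℝ)|) ^ Units.rank K) * sig K else 0 := by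
  have hg0 : (g : K) ≠ 0 := by
    rwa [Ne, RingOfIntegers.coe_eq_zero_iff]
  have hw : ∀ w : InfinitePlace K, 0 < w (g : K) := fun w => w.pos_iff.2 hg0
  have h1 : ∀ l : logSpace K, ff T g l =
      ({l : logSpace K | ∀ w, - (Real.log T - Real.log (w (g : K))) ≤ sg l w}).indicator 1 l := by
    intro l
    unfold ff
    rw [Set.indicator_apply]
    have h2 : (∀ w : InfinitePlace K, cf l w * w (g : K) ≤ T) ↔
        l ∈ {l : logSpace K | ∀ w, - (Real.log T - Real.log (w (g : K))) ≤ sg l w} := by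
      simp only [Set.mem_ofPred_eq]
      refine forall_congr' fun w => ?_
      unfold cf
      rw [← Real.log_le_log_iff (mul_pos (Real.exp_pos _) (hw w)) hT,
        Real.log_mul (Real.exp_pos _).ne' (hw w).ne', Real.log_exp]
      constructor <;> intro h <;> linarith
    simp only [h2, Pi.one_apply]
  have h3 : MeasurableSet
      {l : logSpace K | ∀ w, - (Real.log T - Real.log (w (g : K))) ≤ sg l w} := by
    have h : {l : logSpace K | ∀ w, - (Real.log T - Real.log (w (g : K))) ≤ sg l w} =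
      ⋂ w : InfinitePlace K, {l | - (Real.log T - Real.log (w (g : K))) ≤ sg l w} := by
      ext l; simp
    rw [h]
    exact MeasurableSet.iInter fun w =>
      measurableSet_le measurable_const (continuous_sg (K := K) w).measurable
  simp_rw [h1]
  rw [lintegral_indicator_one h3, volume_sg_ge]
  have h4 : ∑ w : InfinitePlace K, (w.mult : ℝ) * (Real.log T - Real.log (w (g : K))) =
      Module.finrank ℚ K * Real.log T - Real.log |(Algebra.norm ℚ (g : K) : ℝ)| := by
    simp_rw [mul_sub]
    rw [Finset.sum_sub_distrib, ← Finset.sum_mul]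
    congr 1
    · rw [← sum_mult_eq]; push_cast; rfl
    · have h5 := prod_eq_abs_norm (g : K)
      have h6 : |(Algebra.norm ℚ (g : K) : ℝ)| = ∏ w : InfinitePlace K, w (g : K) ^ w.mult := by
        rw [h5]; push_cast; rfl
      rw [h6, Real.log_prod (fun w _ => (pow_pos (hw w) _).ne')]
      refine Finset.sum_congr rfl fun w _ => ?_
      rw [Real.log_pow]
  rw [h4]

/-- The Riesz weight of an ideal. -/
noncomputable def wt (r : ℕ) (x : ℝ) (I : (Ideal (𝓞 K))⁰) : ENNReal :=
  if (Ideal.absNorm (I : Ideal (𝓞 K)) : ℝ) ≤ x then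
    ENNReal.ofReal ((Real.log (x / Ideal.absNorm (I : Ideal (𝓞 K)))) ^ r) else 0

lemma absNorm_pos (b : (Ideal (𝓞 K))⁰) : (0 : ℝ) < Ideal.absNorm (b : Ideal (𝓞 K)) := by
  have h : 0 < Ideal.absNorm (b : Ideal (𝓞 K)) := by
    rw [Nat.pos_iff_ne_zero, Ne, Ideal.absNorm_eq_zero_iff]
    exact nonZeroDivisors.ne_zero b.2
  exact_mod_cast h

/-- The identity for a class. -/
theorem class_identity (b : (Ideal (𝓞 K))⁰) (x T : ℝ) (hx : 0 < x) (hT : 0 < T)
    (hpow : T ^ Module.finrank ℚ K = x * Ideal.absNorm (b : Ideal (𝓞 K))) :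
    ∫⁻ l in FD K, ∑' α : YE b, ff T α.1 l =
      (torsionOrder K : ENNReal) * sig K * ∑' I : XI b, wt (Units.rank K) x I.1 := by
  have := countable_XI b
  have h1 : ∀ l : logSpace K, ∑' α : YE b, ff T α.1 l =
      ∑' I : XI b, ∑' u : (𝓞 K)ˣ, ff T (gI b I) (l - logEmbedding K (Additive.ofMul u)) := by
    intro l
    rw [tsum_YE b (fun α => ff T α l)]
    simp_rw [ff_unit_mul]
  simp_rw [h1]
  have h2 : ∀ I : XI b, Measurable (fun l : logSpace K =>
      ∑' u : (𝓞 K)ˣ, ff T (gI b I) (l - logEmbedding K (Additive.ofMul u))) := fun I =>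
    Measurable.tsum fun u => (measurable_ff T _).comp (measurable_sub_const _)
  rw [lintegral_tsum (fun I => (h2 I).aemeasurable), ← ENNReal.tsum_mul_left]
  refine tsum_congr fun I => ?_
  rw [unfold_units _ (measurable_ff T _), lintegral_ff T hT _ (gI_ne_zero b I), mul_assoc]
  congr 1
  have hb := absNorm_pos b
  have hI := absNorm_pos I.1
  have h3 : Module.finrank ℚ K * Real.log T - Real.log |(Algebra.norm ℚ (gI b I : K) : ℝ)| =
      Real.log (x / Ideal.absNorm (I.1 : Ideal (𝓞 K))) := by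
    rw [← absNorm_gI, ← Real.log_pow, hpow, Real.log_mul hx.ne' hb.ne',
      Real.log_mul hI.ne' hb.ne', Real.log_div hx.ne' hI.ne']
    ring
  rw [h3, wt]
  have h4 : 0 ≤ Real.log (x / Ideal.absNorm (I.1 : Ideal (𝓞 K))) ↔
      (Ideal.absNorm (I.1 : Ideal (𝓞 K)) : ℝ) ≤ x := by
    rw [Real.log_nonneg_iff (by positivity), le_div_iff₀ hI, one_mul]
  by_cases h5 : (Ideal.absNorm (I.1 : Ideal (𝓞 K)) : ℝ) ≤ x
  · rw [if_pos (h4.2 h5), if_pos h5, mul_comm]
  · rw [if_neg (fun h => h5 (h4.1 h)), if_neg h5, mul_zero]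

end H77.UZ
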