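import Pool.Agent.H77.UZ.Scal
import Pool.Agent.H77.UZ.Cls
import Pool.Agent.H8.RI.Cov

/-!
# Uniform zeta, chapter RIESZ MEAN OF THE IDEALS: counting the elements of an ideal
-/

namespace H77.UZ

open NumberField NumberField.InfinitePlace NumberField.Units NumberField.mixedEmbedding
open NumberField.Units.dirichletUnitTheorem MeasureTheory nonZeroDivisors

open scoped Classical

variable {K : Type} [Field K] [NumberField K]

/-- The scaling factors. -/
noncomputable def cf (l : logSpace K) (w : InfinitePlace K) : ℝ := Real.exp (- sg l w)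

lemma cf_pos (l : logSpace K) (w : InfinitePlace K) : 0 < cf l w := Real.exp_pos _

lemma prod_cf (l : logSpace K) : ∏ w, cf l w ^ w.mult = 1 := by
  unfold cf
  simp_rw [← Real.exp_nat_mul]
  rw [← Real.exp_sum]
  have h := sum_sg l
  simp_rw [mul_neg]
  rw [Finset.sum_neg_distrib, h, neg_zero, Real.exp_zero]

/-- The scaled lattice of an ideal. -/
noncomputable def LL (b : (Ideal (𝓞 K))⁰) (l : logSpace K) : Submodule ℤ (mixedSpace K) :=
  ZLattice.comap ℝ (mixedEmbedding.idealLattice K (FractionalIdeal.mk0 K b))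
    (mulE (cf l) (cf_pos l)).symm.toLinearMap

noncomputable instance (b : (Ideal (𝓞 K))⁰) (l : logSpace K) : DiscreteTopology (LL b l) := by
  unfold LL; infer_instance

noncomputable instance (b : (Ideal (𝓞 K))⁰) (l : logSpace K) : IsZLattice ℝ (LL b l) := by
  unfold LL; infer_instance

lemma mem_LL (b : (Ideal (𝓞 K))⁰) (l : logSpace K) (x : mixedSpace K) :
    x ∈ LL b l ↔ ∃ α : 𝓞 K, α ∈ (b : Ideal (𝓞 K)) ∧
      mulE (cf l) (cf_pos l) (mixedEmbedding K (α : K)) = x := by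
  have h1 : x ∈ LL b l ↔ (mulE (cf l) (cf_pos l)).symm x ∈
      mixedEmbedding.idealLattice K (FractionalIdeal.mk0 K b) := Iff.rfl
  rw [h1, mem_idealLattice]
  constructor
  · rintro ⟨y, hy, hyx⟩
    rw [FractionalIdeal.coe_mk0, SetLike.mem_coe, FractionalIdeal.mem_coeIdeal] at hy
    obtain ⟨α, hα, hαy⟩ := hy
    refine ⟨α, hα, ?_⟩
    have h2 : mixedEmbedding K (α : K) = (mulE (cf l) (cf_pos l)).symm x := by
      rw [← hyx, ← hαy]
    rw [h2, ContinuousLinearEquiv.apply_symm_apply]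
  · rintro ⟨α, hα, h⟩
    refine ⟨(α : K), ?_, ?_⟩
    · rw [FractionalIdeal.coe_mk0, SetLike.mem_coe, FractionalIdeal.mem_coeIdeal]
      exact ⟨α, hα, rfl⟩
    · rw [← h]; simp

lemma covolume_LL (b : (Ideal (𝓞 K))⁰) (l : logSpace K) :
    ZLattice.covolume (LL b l) volume =
      (Ideal.absNorm (b : Ideal (𝓞 K)) : ℝ) * ((2⁻¹) ^ nrComplexPlaces K * √|discr K|) := by
  have h1 := ZLattice.covolume_comap
    (mixedEmbedding.idealLattice K (FractionalIdeal.mk0 K b)) volume volume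
    (e := (mulE (cf l) (cf_pos l)).symm)
    ((measurePreserving_mulE (cf l) (cf_pos l) (prod_cf l)).symm
      (mulE (cf l) (cf_pos l)).toHomeomorph.toMeasurableEquiv)
  rw [covolume_idealLattice, FractionalIdeal.coe_mk0, FractionalIdeal.coeIdeal_absNorm] at h1
  rw [LL]
  refine h1.trans ?_
  push_cast
  ring

lemma absNorm_le_of_mem (b : (Ideal (𝓞 K))⁰) (α : 𝓞 K) (hα : α ∈ (b : Ideal (𝓞 K)))
    (h0 : α ≠ 0) :
    (Ideal.absNorm (b : Ideal (𝓞 K)) : ℝ) ≤ |(Algebra.norm ℚ (α : K) : ℝ)| := by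
  have h1 : Ideal.absNorm (b : Ideal (𝓞 K)) ∣ Ideal.absNorm (Ideal.span {α}) := by
    apply Ideal.absNorm_dvd_absNorm_of_le
    rw [Ideal.span_singleton_le_iff_mem]
    exact hα
  have h2 : 0 < Ideal.absNorm (Ideal.span {α}) := by
    rw [Nat.pos_iff_ne_zero, Ne, Ideal.absNorm_eq_zero_iff, Ideal.span_singleton_eq_bot]
    exact h0
  have h3 := Nat.le_of_dvd h2 h1
  have h4 : ((Algebra.norm ℤ α).natAbs : ℝ) = |(Algebra.norm ℚ (α : K) : ℝ)| := by
    rw [← Algebra.coe_norm_int, Nat.cast_natAbs]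
    push_cast
    rfl
  rw [← h4]
  rw [Ideal.absNorm_span_singleton] at h3
  exact_mod_cast h3

lemma min_LL (b : (Ideal (𝓞 K))⁰) (l : logSpace K) {lam : ℝ}
    (hpow : lam ^ Module.finrank ℚ K = Ideal.absNorm (b : Ideal (𝓞 K)))
    (x : mixedSpace K) (hx : x ∈ LL b l) (hx0 : x ≠ 0) : lam ≤ ‖x‖ := by
  obtain ⟨α, hα, rfl⟩ := (mem_LL b l x).1 hx
  have hα0 : α ≠ 0 := by
    rintro rfl
    apply hx0
    simp
  have h1 := absNorm_le_of_mem b α hα hα0
  rw [← hpow] at h1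
  have h2 := norm_le_norm_pow (mulE (cf l) (cf_pos l) (mixedEmbedding K (α : K)))
  rw [norm_mulE _ _ (prod_cf l), norm_eq_norm] at h2
  have h3 : lam ^ Module.finrank ℚ K ≤
      ‖mulE (cf l) (cf_pos l) (mixedEmbedding K (α : K))‖ ^ Module.finrank ℚ K := by
    refine h1.trans (le_of_eq_of_le ?_ h2)
    push_cast
    rfl
  exact le_of_pow_le_pow_left₀ Module.finrank_pos.ne' (norm_nonneg _) h3

/-- The elements of `b` in the box of size `T`. -/
def AT (b : (Ideal (𝓞 K))⁰) (l : logSpace K) (T : ℝ) : Set (𝓞 K) :=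
  {α | α ∈ (b : Ideal (𝓞 K)) ∧ ∀ w : InfinitePlace K, cf l w * w (α : K) ≤ T}

lemma image_AT (b : (Ideal (𝓞 K))⁰) (l : logSpace K) (T : ℝ) :
    (fun α : 𝓞 K => mulE (cf l) (cf_pos l) (mixedEmbedding K (α : K))) '' (AT b l T) =
      {x | x ∈ LL b l ∧ ‖x‖ ≤ T} := by
  ext x
  constructor
  · rintro ⟨α, ⟨h1, h2⟩, rfl⟩
    refine ⟨(mem_LL b l _).2 ⟨α, h1, rfl⟩, (norm_le_iff' _ _).2 fun w => ?_⟩
    rw [normAtPlace_mulE, normAtPlace_apply]
    exact h2 w
  · rintro ⟨h1, h2⟩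
    obtain ⟨α, hα, rfl⟩ := (mem_LL b l x).1 h1
    refine ⟨α, ⟨hα, fun w => ?_⟩, rfl⟩
    have := (norm_le_iff' _ _).1 h2 w
    rwa [normAtPlace_mulE, normAtPlace_apply] at this

lemma inj_emb (l : logSpace K) :
    Function.Injective (fun α : 𝓞 K => mulE (cf l) (cf_pos l) (mixedEmbedding K (α : K))) := by
  intro α β h
  have h1 := (mulE (cf l) (cf_pos l)).injective h
  exact RingOfIntegers.coe_injective (mixedEmbedding_injective K h1)

lemma finite_AT (b : (Ideal (𝓞 K))⁰) (l : logSpace K) (T : ℝ) : (AT b l T).Finite := by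
  have h := H8.RI.finite_ball (LL b l) T
  rw [← image_AT] at h
  exact Set.Finite.of_finite_image h (inj_emb l).injOn

lemma ncard_AT (b : (Ideal (𝓞 K))⁰) (l : logSpace K) (T : ℝ) :
    {x | x ∈ LL b l ∧ ‖x‖ ≤ T}.ncard = (AT b l T).ncard := by
  rw [← image_AT, Set.ncard_image_of_injective _ (inj_emb l)]

lemma tsum_AT (b : (Ideal (𝓞 K))⁰) (l : logSpace K) (T : ℝ) (hT : 0 ≤ T) :
    (∑' α : YE b, if ∀ w : InfinitePlace K, cf l w * w (α.1 : K) ≤ T then (1 : ENNReal) else 0) =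
      ENNReal.ofReal ((AT b l T).ncard - 1) := by
  have h0 : (0 : 𝓞 K) ∈ AT b l T := by
    refine ⟨Ideal.zero_mem _, fun w => ?_⟩
    simp [hT]
  have h1 : (∑' α : YE b, if ∀ w : InfinitePlace K, cf l w * w (α.1 : K) ≤ T then
      (1 : ENNReal) else 0) = (AT b l T \ {0}).encard := by
    rw [← ENNReal.tsum_set_one, tsum_subtype (s := AT b l T \ {0}) (fun _ => (1 : ENNReal)),
      show (∑' α : YE b, if ∀ w : InfinitePlace K, cf l w * w (α.1 : K) ≤ T then
      (1 : ENNReal) else 0) = ∑' α : {α : 𝓞 K | α ∈ (b : Ideal (𝓞 K)) ∧ α ≠ 0},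
        (fun α : 𝓞 K => if ∀ w : InfinitePlace K, cf l w * w (α : K) ≤ T then
      (1 : ENNReal) else 0) α from rfl,
      tsum_subtype (s := {α : 𝓞 K | α ∈ (b : Ideal (𝓞 K)) ∧ α ≠ 0})
        (fun α : 𝓞 K => if ∀ w : InfinitePlace K, cf l w * w (α : K) ≤ T then
      (1 : ENNReal) else 0)]
    refine tsum_congr fun α => ?_
    by_cases h2 : α ∈ (b : Ideal (𝓞 K)) <;> by_cases h3 : α = 0 <;>
      by_cases h4 : ∀ w : InfinitePlace K, cf l w * w (α : K) ≤ T <;>
      simp [Set.indicator, AT, h2, h3, h4]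
  rw [h1]
  have h2 : (AT b l T \ {0}).Finite := (finite_AT b l T).subset Set.sdiff_subset
  rw [← h2.cast_ncard_eq, Set.ncard_sdiff_singleton_of_mem h0]
  have h3 : 1 ≤ (AT b l T).ncard := by
    rw [Nat.one_le_iff_ne_zero, Ne, Set.ncard_eq_zero (finite_AT b l T)]
    exact Set.Nonempty.ne_empty ⟨0, h0⟩
  have h4 : ((AT b l T).ncard : ℝ) - 1 = (((AT b l T).ncard - 1 : ℕ) : ℝ) := by
    push_cast [h3]; ring
  rw [h4, ENNReal.ofReal_natCast]
  rfl

end H77.UZ
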