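import Pool.Agent.H77.UZ.Fin

/-!
# Uniform zeta, chapter RIESZ MEAN OF THE IDEALS: the sum over the ideals as a Riesz sum
-/

namespace H77.UZ

open NumberField nonZeroDivisors

open scoped Classical

variable {K : Type} [Field K] [NumberField K]

/-- The ideals of a positive norm are nonzero. -/
private noncomputable def fibN (m : ℕ) (hm : 0 < m) :
    {I : (Ideal (𝓞 K))⁰ // Ideal.absNorm (I : Ideal (𝓞 K)) = m} ≃
      {I : Ideal (𝓞 K) // Ideal.absNorm I = m} where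
  toFun I := ⟨I.1.1, I.2⟩
  invFun I := ⟨⟨I.1, mem_nonZeroDivisors_of_ne_zero (by
    intro h
    have h1 := I.2
    rw [h, Ideal.zero_eq_bot, Ideal.absNorm_bot] at h1
    omega)⟩, I.2⟩
  left_inv I := by
    apply Subtype.ext; apply Subtype.ext; rfl
  right_inv I := by
    apply Subtype.ext; rfl

lemma tsum_wt (r : ℕ) (x : ℝ) (hx : 0 < x) :
    ∑' I : (Ideal (𝓞 K))⁰, wt r x I = ENNReal.ofReal (Rz r (an K) x) := by
  have hnn : ∀ m ∈ Finset.Icc 1 ⌊x⌋₊, 0 ≤ an K m * (Real.log (x / m)) ^ r := by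
    intro m hm
    rw [Finset.mem_Icc] at hm
    have hm1 : (1 : ℝ) ≤ m := by exact_mod_cast hm.1
    have hm2 : (m : ℝ) ≤ x := (Nat.le_floor_iff hx.le).1 hm.2
    refine mul_nonneg (Nat.cast_nonneg _) (pow_nonneg (Real.log_nonneg ?_) _)
    rw [le_div_iff₀ (by linarith), one_mul]
    exact hm2
  rw [Rz, ENNReal.ofReal_sum_of_nonneg hnn,
    ← (Equiv.sigmaFiberEquiv (fun I : (Ideal (𝓞 K))⁰ => Ideal.absNorm (I : Ideal (𝓞 K)))).tsum_eq,
    ENNReal.tsum_sigma']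
  have h1 : ∀ m : ℕ, ∑' I : {I : (Ideal (𝓞 K))⁰ // Ideal.absNorm (I : Ideal (𝓞 K)) = m},
      wt r x ((Equiv.sigmaFiberEquiv
        (fun I : (Ideal (𝓞 K))⁰ => Ideal.absNorm (I : Ideal (𝓞 K)))) ⟨m, I⟩) =
      if m ∈ Finset.Icc 1 ⌊x⌋₊ then ENNReal.ofReal (an K m * (Real.log (x / m)) ^ r) else 0 := by
    intro m
    have h2 : ∀ I : {I : (Ideal (𝓞 K))⁰ // Ideal.absNorm (I : Ideal (𝓞 K)) = m},
        wt r x ((Equiv.sigmaFiberEquiv
        (fun I : (Ideal (𝓞 K))⁰ => Ideal.absNorm (I : Ideal (𝓞 K)))) ⟨m, I⟩) =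
        if m ∈ Finset.Icc 1 ⌊x⌋₊ then ENNReal.ofReal ((Real.log (x / m)) ^ r) else 0 := by
      intro I
      rw [Equiv.sigmaFiberEquiv_apply, wt]
      have hI := I.2
      have hpos := absNorm_pos I.1
      rw [hI] at hpos ⊢
      have hm : 1 ≤ m := by
        have : 0 < m := by exact_mod_cast hpos
        omega
      have h3 : (m : ℝ) ≤ x ↔ m ∈ Finset.Icc 1 ⌊x⌋₊ := by
        rw [Finset.mem_Icc, Nat.le_floor_iff hx.le]
        simp [hm]
      simp only [h3]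
    rw [tsum_congr h2, ENNReal.tsum_const]
    by_cases hm : m ∈ Finset.Icc 1 ⌊x⌋₊
    · rw [if_pos hm, if_pos hm]
      have hm1 : 0 < m := by
        rw [Finset.mem_Icc] at hm; omega
      rw [ENat.card_congr (fibN m hm1), an, ENNReal.ofReal_mul (Nat.cast_nonneg _)]
      have hfin : Finite {I : Ideal (𝓞 K) // Ideal.absNorm I = m} :=
        (Ideal.finite_setOfPred_absNorm_eq m)
      rw [ENat.card_eq_coe_natCard, ENNReal.ofReal_natCast]
      rfl
    · rw [if_neg hm, if_neg hm, mul_zero]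
  rw [tsum_congr h1, tsum_eq_sum (s := Finset.Icc 1 ⌊x⌋₊) (fun m hm => if_neg hm)]
  exact Finset.sum_congr rfl fun m hm => if_pos hm

end H77.UZ
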