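import Pool.Agent.H77.UZ.Def

/-!
# Uniform zeta, chapter RIESZ MEAN OF THE IDEALS: the diagonal scaling of the mixed space
-/

namespace H77.UZ

open NumberField NumberField.InfinitePlace NumberField.Units NumberField.mixedEmbedding
open NumberField.Units.dirichletUnitTheorem MeasureTheory

open scoped Classical

variable {K : Type} [Field K] [NumberField K]

/-- The coordinates at all the infinite places (divided by the multiplicity) of a vector of the
logarithmic space. -/
noncomputable def sg (l : logSpace K) (w : InfinitePlace K) : ℝ :=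
  if h : w = w₀ then - (∑ v, l v) / w.mult else l ⟨w, h⟩ / w.mult

lemma mult_pos' (w : InfinitePlace K) : (0 : ℝ) < w.mult := by
  exact_mod_cast w.mult_pos

lemma sum_sg (l : logSpace K) : ∑ w : InfinitePlace K, (w.mult : ℝ) * sg l w = 0 := by
  rw [Fintype.sum_eq_add_sum_subtype_ne _ (w₀ : InfinitePlace K)]
  have h1 : ((w₀ : InfinitePlace K).mult : ℝ) * sg l w₀ = - ∑ v, l v := by
    rw [sg, dif_pos rfl]
    field_simp [(mult_pos' (w₀ : InfinitePlace K)).ne']
  have h2 : ∀ v : {w : InfinitePlace K // w ≠ w₀}, ((v : InfinitePlace K).mult : ℝ) * sg l v.1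
      = l v := by
    intro v
    rw [sg, dif_neg v.2]
    field_simp [(mult_pos' v.1).ne']
  rw [h1, Finset.sum_congr rfl (fun v _ => h2 v)]
  ring

lemma mult_sg_ne (l : logSpace K) (v : {w : InfinitePlace K // w ≠ w₀}) :
    ((v : InfinitePlace K).mult : ℝ) * sg l v.1 = l v := by
  rw [sg, dif_neg v.2]
  field_simp [(mult_pos' v.1).ne']

lemma mult_sg_w₀ (l : logSpace K) :
    ((w₀ : InfinitePlace K).mult : ℝ) * sg l w₀ = - ∑ v, l v := by
  rw [sg, dif_pos rfl]
  field_simp [(mult_pos' (w₀ : InfinitePlace K)).ne']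

lemma sg_sub (l m : logSpace K) (w : InfinitePlace K) : sg (l - m) w = sg l w - sg m w := by
  unfold sg
  split_ifs with h
  · simp only [Pi.sub_apply, Finset.sum_sub_distrib]
    ring
  · simp only [Pi.sub_apply]
    ring

lemma continuous_sg (w : InfinitePlace K) : Continuous (fun l : logSpace K => sg l w) := by
  unfold sg
  split_ifs with h
  · fun_prop
  · fun_prop

lemma sg_logEmbedding (u : (𝓞 K)ˣ) (w : InfinitePlace K) :
    sg (logEmbedding K (Additive.ofMul u)) w = Real.log (w (u : K)) := by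
  have hm := mult_pos' w
  by_cases h : w = w₀
  · subst h
    have h1 := mult_sg_w₀ (logEmbedding K (Additive.ofMul u))
    rw [sum_logEmbedding_component] at h1
    have h2 : ((w₀ : InfinitePlace K).mult : ℝ) * sg (logEmbedding K (Additive.ofMul u)) w₀
        = ((w₀ : InfinitePlace K).mult : ℝ) * Real.log (w₀ (u : K)) := by
      rw [h1]; ring
    exact mul_left_cancel₀ hm.ne' h2
  · have h1 := mult_sg_ne (logEmbedding K (Additive.ofMul u)) ⟨w, h⟩
    rw [logEmbedding_component] at h1
    exact mul_left_cancel₀ hm.ne' h1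

/-- The diagonal element of the mixed space. -/
noncomputable def dg (c : InfinitePlace K → ℝ) : mixedSpace K :=
  (fun w => c w.1, fun w => (c w.1 : ℂ))

lemma dg_mul (c d : InfinitePlace K → ℝ) : dg c * dg d = dg (fun w => c w * d w) := by
  unfold dg
  ext w
  · simp
  · simp

lemma dg_one : dg (fun _ : InfinitePlace K => (1 : ℝ)) = 1 := by
  unfold dg
  ext w
  · simp
  · simp

lemma normAtPlace_dg (c : InfinitePlace K → ℝ) (hc : ∀ w, 0 ≤ c w) (w : InfinitePlace K) :
    normAtPlace w (dg c) = c w := by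
  rcases w.isReal_or_isComplex with h | h
  · rw [normAtPlace_apply_of_isReal h]
    simp [dg, abs_of_nonneg (hc w)]
  · rw [normAtPlace_apply_of_isComplex h]
    simp [dg, abs_of_nonneg (hc w)]

/-- Multiplication by a diagonal element, as a continuous linear equivalence. -/
noncomputable def mulE (c : InfinitePlace K → ℝ) (hc : ∀ w, 0 < c w) :
    mixedSpace K ≃L[ℝ] mixedSpace K :=
  LinearEquiv.toContinuousLinearEquiv
    { toFun := fun x => dg c * x
      map_add' := fun x y => mul_add _ _ _
      map_smul' := fun r x => by simp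
      invFun := fun x => dg (fun w => (c w)⁻¹) * x
      left_inv := fun x => by
        show dg (fun w => (c w)⁻¹) * (dg c * x) = x
        rw [← mul_assoc, dg_mul]
        have h : (fun w : InfinitePlace K => (c w)⁻¹ * c w) = fun _ => (1 : ℝ) := by
          funext w
          exact inv_mul_cancel₀ (hc w).ne'
        rw [h, dg_one, one_mul]
      right_inv := fun x => by
        show dg c * (dg (fun w => (c w)⁻¹) * x) = x
        rw [← mul_assoc, dg_mul]
        have h : (fun w : InfinitePlace K => c w * (c w)⁻¹) = fun _ => (1 : ℝ) := by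
          funext w
          exact mul_inv_cancel₀ (hc w).ne'
        rw [h, dg_one, one_mul] }

lemma mulE_apply (c : InfinitePlace K → ℝ) (hc : ∀ w, 0 < c w) (x : mixedSpace K) :
    mulE c hc x = dg c * x := rfl

lemma mulE_symm_apply (c : InfinitePlace K → ℝ) (hc : ∀ w, 0 < c w) (x : mixedSpace K) :
    (mulE c hc).symm x = dg (fun w => (c w)⁻¹) * x := rfl

lemma normAtPlace_mulE (c : InfinitePlace K → ℝ) (hc : ∀ w, 0 < c w) (x : mixedSpace K)
    (w : InfinitePlace K) : normAtPlace w (mulE c hc x) = c w * normAtPlace w x := by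
  rw [mulE_apply, map_mul, normAtPlace_dg c (fun w => (hc w).le)]

lemma norm_le_iff' (x : mixedSpace K) (T : ℝ) :
    ‖x‖ ≤ T ↔ ∀ w, normAtPlace w x ≤ T := by
  classical
  rw [norm_eq_sup'_normAtPlace]
  simp

lemma norm_lt_iff' (x : mixedSpace K) (T : ℝ) :
    ‖x‖ < T ↔ ∀ w, normAtPlace w x < T := by
  classical
  rw [norm_eq_sup'_normAtPlace]
  simp

lemma norm_le_norm_pow (x : mixedSpace K) :
    mixedEmbedding.norm x ≤ ‖x‖ ^ Module.finrank ℚ K := by
  classical
  rw [mixedEmbedding.norm_apply, ← sum_mult_eq, ← Finset.prod_pow_eq_pow_sum]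
  exact Finset.prod_le_prod (fun w _ => pow_nonneg (normAtPlace_nonneg _ _) _)
    (fun w _ => pow_le_pow_left₀ (normAtPlace_nonneg _ _) ((norm_le_iff' x _).1 le_rfl w) _)

lemma norm_mulE (c : InfinitePlace K → ℝ) (hc : ∀ w, 0 < c w)
    (hp : ∏ w, c w ^ w.mult = 1) (x : mixedSpace K) :
    mixedEmbedding.norm (mulE c hc x) = mixedEmbedding.norm x := by
  classical
  rw [mixedEmbedding.norm_apply, mixedEmbedding.norm_apply]
  simp_rw [normAtPlace_mulE, mul_pow, Finset.prod_mul_distrib]
  rw [hp, one_mul]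

lemma mem_convexBodyLT_iff (f : InfinitePlace K → NNReal) (x : mixedSpace K) :
    x ∈ convexBodyLT K f ↔ ∀ w, normAtPlace w x < f w := by
  unfold convexBodyLT
  rw [Set.mem_prod, Set.mem_pi, Set.mem_pi]
  constructor
  · rintro ⟨h1, h2⟩ w
    rcases w.isReal_or_isComplex with h | h
    · rw [normAtPlace_apply_of_isReal h]
      have := h1 ⟨w, h⟩ (Set.mem_univ _)
      rwa [mem_ball_zero_iff] at this
    · rw [normAtPlace_apply_of_isComplex h]
      have := h2 ⟨w, h⟩ (Set.mem_univ _)
      rwa [mem_ball_zero_iff] at this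
  · intro h
    refine ⟨fun w _ => ?_, fun w _ => ?_⟩
    · rw [mem_ball_zero_iff, ← normAtPlace_apply_of_isReal w.2]
      exact h _
    · rw [mem_ball_zero_iff, ← normAtPlace_apply_of_isComplex w.2]
      exact h _

lemma ball_eq_convexBodyLT (T : NNReal) :
    Metric.ball (0 : mixedSpace K) T = convexBodyLT K (fun _ => T) := by
  ext x
  rw [mem_ball_zero_iff, mem_convexBodyLT_iff, norm_lt_iff']

lemma volume_ball_one :
    volume (Metric.ball (0 : mixedSpace K) 1) = (convexBodyLTFactor K : ENNReal) := by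
  have h := ball_eq_convexBodyLT (K := K) 1
  rw [NNReal.coe_one] at h
  rw [h, convexBodyLT_volume]
  simp

lemma measurePreserving_mulE (c : InfinitePlace K → ℝ) (hc : ∀ w, 0 < c w)
    (hp : ∏ w, c w ^ w.mult = 1) :
    MeasurePreserving (mulE c hc) (volume : Measure (mixedSpace K)) volume := by
  refine ⟨(mulE c hc).continuous.measurable, ?_⟩
  have hdet : LinearMap.det ((mulE c hc).toLinearEquiv : mixedSpace K →ₗ[ℝ] mixedSpace K) ≠ 0 :=
    (LinearEquiv.isUnit_det' _).ne_zero
  have h1 := Measure.map_linearMap_addHaar_eq_smul_addHaar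
    (volume : Measure (mixedSpace K)) hdet
  have h2 : (⇑((mulE c hc).toLinearEquiv : mixedSpace K →ₗ[ℝ] mixedSpace K)) = ⇑(mulE c hc) := rfl
  rw [h2] at h1
  -- the constant is one, by the volume of the unit ball
  have h3 : (mulE c hc) ⁻¹' (convexBodyLT K (fun _ => 1)) =
      convexBodyLT K (fun w => Real.toNNReal (c w)⁻¹) := by
    ext x
    rw [Set.mem_preimage, mem_convexBodyLT_iff (fun _ => 1), mem_convexBodyLT_iff]
    refine forall_congr' fun w => ?_
    rw [normAtPlace_mulE, Real.coe_toNNReal _ (inv_pos.2 (hc w)).le, NNReal.coe_one,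
      ← one_div, lt_div_iff₀' (hc w)]
  have hms : MeasurableSet (convexBodyLT K (fun _ => 1)) := by
    have h := ball_eq_convexBodyLT (K := K) 1
    rw [← h]
    exact measurableSet_ball
  have h4 : (Measure.map (mulE c hc) volume) (convexBodyLT K (fun _ => 1)) =
      (ENNReal.ofReal |(LinearMap.det
        ((mulE c hc).toLinearEquiv : mixedSpace K →ₗ[ℝ] mixedSpace K))⁻¹| •
        (volume : Measure (mixedSpace K))) (convexBodyLT K (fun _ => 1)) := by rw [h1]
  rw [Measure.map_apply (mulE c hc).continuous.measurable hms, h3, convexBodyLT_volume,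
    Measure.smul_apply, convexBodyLT_volume, smul_eq_mul] at h4
  have h5 : ∏ w : InfinitePlace K, (Real.toNNReal (c w)⁻¹) ^ w.mult = 1 := by
    apply NNReal.coe_injective
    push_cast
    have h6 : ∀ w : InfinitePlace K, ((Real.toNNReal (c w)⁻¹ : NNReal) : ℝ) = (c w)⁻¹ :=
      fun w => Real.coe_toNNReal _ (inv_pos.2 (hc w)).le
    simp only [h6, inv_pow, Finset.prod_inv_distrib]
    rw [hp, inv_one]
  have h7 : ENNReal.ofReal |(LinearMap.det
        ((mulE c hc).toLinearEquiv : mixedSpace K →ₗ[ℝ] mixedSpace K))⁻¹| = 1 := by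
    rw [h5] at h4
    simp only [one_pow, Finset.prod_const_one, ENNReal.coe_one, mul_one] at h4
    have h8 : (convexBodyLTFactor K : ENNReal) ≠ 0 := by
      rw [ENNReal.coe_ne_zero]
      exact convexBodyLTFactor_ne_zero K
    have h9 : 1 * (convexBodyLTFactor K : ENNReal) = ENNReal.ofReal |(LinearMap.det
        ((mulE c hc).toLinearEquiv : mixedSpace K →ₗ[ℝ] mixedSpace K))⁻¹| *
        (convexBodyLTFactor K : ENNReal) := by
      rw [one_mul]; exact h4
    exact ((ENNReal.mul_left_inj h8 ENNReal.coe_ne_top).1 h9).symm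
  rw [h1, h7, one_smul]

end H77.UZ
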